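import Mathlib
import Pool.Agent.H20Z.FineMain

set_option autoImplicit false

open MeasureTheory Pool.Agent.H20Z.Fine

/-- In a metric space with a doubling Borel measure supporting a `p`-Poincare inequality,
removing a set of zero Sobolev capacity from a `p`-fine domain leaves a `p`-fine domain. -/
theorem Pool.Agent.Results.MP_024e69_an.AFineDomain.result
    {X : Type*} [MetricSpace X] [MeasurableSpace X] [BorelSpace X] (μ : Measure X) (p : ℝ)
    (hp : 1 < p) (hd : IsDoubling μ) (hPI : SupportsPoincare μ p) (U E : Set X)
    (hU : IsFineDomain μ p U) (hE : sobolevCap μ p E = 0) : IsFineDomain μ p (U \ E) :=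
  fineDomain_diff hp hd hPI hU hE
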